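import Mathlib

/-!
Numbers of points.
-/

set_option autoImplicit false
set_option linter.unusedSectionVars false

namespace Pool.Agent.H11.CB

section cusp

variable {E : Type} [Field E]

theorem bez {a b : ℕ} (hab : Nat.Coprime a b) : ∃ u v : ℤ, a * u + b * v = 1 := by
  refine ⟨Nat.gcdA a b, Nat.gcdB a b, ?_⟩
  rw [← Nat.gcd_eq_gcd_ab, hab]
  rfl

/-- the points of the cuspidal curve -/
noncomputable def cuspEquiv {a b : ℕ} (ha : 0 < a) (hb : 0 < b) (hab : Nat.Coprime a b) :
    E ≃ {P : E × E // P.2 ^ a = P.1 ^ b} := by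
  refine Equiv.ofBijective (fun l => ⟨(l ^ a, l ^ b), by rw [← pow_mul, ← pow_mul, mul_comm]⟩) ?_
  obtain ⟨u, v, huv⟩ := bez hab
  have key : ∀ l : E, l ≠ 0 → (l ^ a) ^ u * (l ^ b) ^ v = l := by
    intro l hl
    rw [← zpow_natCast l a, ← zpow_natCast l b, ← zpow_mul, ← zpow_mul, ← zpow_add₀ hl, huv, zpow_one]
  constructor
  · intro l m h
    rw [Subtype.mk.injEq, Prod.mk.injEq] at h
    obtain ⟨h1, h2⟩ := h
    by_cases hl : l = 0
    · rw [hl, zero_pow ha.ne'] at h1
      rw [hl]
      exact (pow_eq_zero_iff ha.ne' |>.1 h1.symm).symm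
    · have hm : m ≠ 0 := by
        rintro rfl
        rw [zero_pow ha.ne'] at h1
        exact hl (pow_eq_zero_iff ha.ne' |>.1 h1)
      rw [← key l hl, ← key m hm, h1, h2]
  · rintro ⟨⟨x, y⟩, h⟩
    dsimp only at h
    by_cases hx : x = 0
    · have hy : y = 0 := by
        rw [hx, zero_pow hb.ne'] at h
        exact pow_eq_zero_iff ha.ne' |>.1 h
      refine ⟨0, ?_⟩
      rw [Subtype.mk.injEq, Prod.mk.injEq, zero_pow ha.ne', zero_pow hb.ne', hx, hy]
      exact ⟨rfl, rfl⟩
    · have hy : y ≠ 0 := by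
        rintro rfl
        rw [zero_pow ha.ne'] at h
        exact hx (pow_eq_zero_iff hb.ne' |>.1 h.symm)
      refine ⟨x ^ u * y ^ v, ?_⟩
      rw [Subtype.mk.injEq, Prod.mk.injEq]
      constructor
      · rw [mul_pow]
        have h1 : (y ^ v) ^ a = x ^ (b * v : ℤ) := by
          rw [← zpow_natCast, ← zpow_mul, mul_comm v, zpow_mul, zpow_natCast, h, ← zpow_natCast x b,
            ← zpow_mul]
        rw [h1, ← zpow_natCast (x ^ u), ← zpow_mul, mul_comm u, ← zpow_add₀ hx, huv, zpow_one]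
      · rw [mul_pow]
        have h1 : (x ^ u) ^ b = y ^ (a * u : ℤ) := by
          rw [← zpow_natCast, ← zpow_mul, mul_comm u, zpow_mul, zpow_natCast, ← h, ← zpow_natCast y a,
            ← zpow_mul]
        rw [h1, ← zpow_natCast (y ^ v), ← zpow_mul, mul_comm v, ← zpow_add₀ hy, huv, zpow_one]

end cusp

section pencil

variable {E : Type} [Field E] [Finite E]

/-- the number of the solutions of `y ^ a = x ^ b + u x ^ i y ^ j` -/
noncomputable def cc (a b i j : ℕ) (u : E) : ℕ :=
  Nat.card {P : E × E // P.2 ^ a = P.1 ^ b + u * (P.1 ^ i * P.2 ^ j)}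

theorem cc_zero {a b : ℕ} (ha : 0 < a) (hb : 0 < b) (hab : Nat.Coprime a b) (i j : ℕ) :
    cc a b i j (0 : E) = Nat.card E := by
  rw [cc, Nat.card_congr (cuspEquiv (E := E) ha hb hab)]
  refine Nat.card_congr (Equiv.subtypeEquivRight fun P => ?_)
  rw [zero_mul, add_zero]

/-- scaling -/
theorem cc_scale {a b i j w : ℕ} (hw : a * i + b * j + w = a * b) {l : E} (hl : l ≠ 0) (u : E) :
    cc a b i j (l ^ w * u) = cc a b i j u := by
  rw [cc, cc]
  refine Nat.card_congr
    { toFun := fun P => ⟨(P.1.1 / l ^ a, P.1.2 / l ^ b), ?_⟩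
      invFun := fun P => ⟨(P.1.1 * l ^ a, P.1.2 * l ^ b), ?_⟩
      left_inv := ?_
      right_inv := ?_ }
  · have h := P.2
    dsimp only
    have e1 : l ^ (a * b) = l ^ (a * i) * l ^ (b * j) * l ^ w := by
      rw [← pow_add, ← pow_add, hw]
    rw [div_pow, div_pow, div_pow, div_pow, h, ← pow_mul, ← pow_mul, ← pow_mul, ← pow_mul,
      mul_comm b a, add_div, e1]
    congr 1
    have h1 : l ^ (a * i) ≠ 0 := pow_ne_zero _ hl
    have h2 : l ^ (b * j) ≠ 0 := pow_ne_zero _ hl
    have h3 : l ^ w ≠ 0 := pow_ne_zero _ hl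
    field_simp
  · have h := P.2
    dsimp only
    have e1 : l ^ (a * b) = l ^ (a * i) * l ^ (b * j) * l ^ w := by
      rw [← pow_add, ← pow_add, hw]
    rw [mul_pow, mul_pow, mul_pow, mul_pow, h, ← pow_mul, ← pow_mul, ← pow_mul, ← pow_mul,
      mul_comm b a, add_mul, e1]
    ring
  · intro P
    apply Subtype.ext
    apply Prod.ext
    · exact div_mul_cancel₀ _ (pow_ne_zero _ hl)
    · exact div_mul_cancel₀ _ (pow_ne_zero _ hl)
  · intro P
    apply Subtype.ext
    apply Prod.ext
    · exact mul_div_cancel_right₀ _ (pow_ne_zero _ hl)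
    · exact mul_div_cancel_right₀ _ (pow_ne_zero _ hl)

/-- the sum over all `u` is the number of the triples -/
theorem sum_cc [Fintype E] (a b i j : ℕ) :
    ∑ u : E, cc a b i j u =
      ∑ P : E × E, Nat.card {u : E // P.2 ^ a = P.1 ^ b + u * (P.1 ^ i * P.2 ^ j)} := by
  simp only [cc]
  rw [← Nat.card_sigma, ← Nat.card_sigma]
  refine Nat.card_congr
    { toFun := fun z => ⟨z.2.1, z.1, z.2.2⟩
      invFun := fun z => ⟨z.2.1, z.1, z.2.2⟩
      left_inv := fun z => rfl
      right_inv := fun z => rfl }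

theorem card_line_one (A B m : E) (hm : m ≠ 0) :
    Nat.card {u : E // A = B + u * m} = 1 := by
  rw [Nat.card_eq_one_iff_unique]
  refine ⟨⟨fun u v => ?_⟩, ⟨⟨(A - B) / m, by rw [div_mul_cancel₀ _ hm]; ring⟩⟩⟩
  apply Subtype.ext
  have h1 := u.2
  have h2 := v.2
  have : u.1 * m = v.1 * m := by
    have : B + u.1 * m = B + v.1 * m := by rw [← h1, ← h2]
    exact add_left_cancel this
  exact mul_right_cancel₀ hm this

theorem card_line_all (A B m : E) (hm : m = 0) (hAB : A = B) :
    Nat.card {u : E // A = B + u * m} = Nat.card E := by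
  refine Nat.card_congr (Equiv.subtypeUnivEquiv fun u => ?_)
  rw [hm, mul_zero, add_zero, hAB]

theorem card_line_none (A B m : E) (hm : m = 0) (hAB : A ≠ B) :
    Nat.card {u : E // A = B + u * m} = 0 := by
  rw [Nat.card_eq_zero]
  left
  subst hm
  refine ⟨fun u => hAB ?_⟩
  have := u.2
  rwa [mul_zero, add_zero] at this

/-- the three types of the middle monomial -/
def Mid (i j : ℕ) : Prop := (i = 0 ∧ j = 0) ∨ (i = 1 ∧ j = 0) ∨ (i = 0 ∧ j = 1)

theorem sum_cc_mid [Fintype E] {a b i j : ℕ} (ha : 0 < a) (hb : 0 < b) (h : Mid i j) :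
    ∑ u : E, cc a b i j u = Nat.card E ^ 2 := by
  classical
  rw [sum_cc]
  rcases h with ⟨rfl, rfl⟩ | ⟨rfl, rfl⟩ | ⟨rfl, rfl⟩
  · rw [Finset.sum_congr rfl fun P _ => card_line_one _ _ _ (by simp), Finset.sum_const,
      Finset.card_univ, Fintype.card_prod, smul_eq_mul, mul_one, sq, Nat.card_eq_fintype_card]
  · have h1 : ∀ P : E × E, Nat.card {u : E // P.2 ^ a = P.1 ^ b + u * (P.1 ^ 1 * P.2 ^ 0)} =
        if P.1 = 0 then (if P.2 = 0 then Nat.card E else 0) else 1 := by
      intro P
      split_ifs with h1 h2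
      · exact card_line_all _ _ _ (by rw [h1]; simp) (by rw [h1, h2, zero_pow ha.ne', zero_pow hb.ne'])
      · exact card_line_none _ _ _ (by rw [h1]; simp) (by
          rw [h1, zero_pow hb.ne']
          exact pow_ne_zero _ h2)
      · exact card_line_one _ _ _ (by simpa using h1)
    rw [Finset.sum_congr rfl fun P _ => h1 P, Fintype.sum_prod_type]
    have h2 : ∀ x : E, ∑ y : E, (if x = 0 then (if y = 0 then Nat.card E else 0) else 1) = Nat.card E := by
      intro x
      split_ifs with hx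
      · rw [Finset.sum_ite_eq' Finset.univ (0 : E) fun _ => Nat.card E, if_pos (Finset.mem_univ _)]
      · rw [Finset.sum_const, Finset.card_univ, smul_eq_mul, mul_one, Nat.card_eq_fintype_card]
    rw [Finset.sum_congr rfl fun x _ => h2 x, Finset.sum_const, Finset.card_univ, smul_eq_mul, sq,
      Nat.card_eq_fintype_card]
  · have h1 : ∀ P : E × E, Nat.card {u : E // P.2 ^ a = P.1 ^ b + u * (P.1 ^ 0 * P.2 ^ 1)} =
        if P.2 = 0 then (if P.1 = 0 then Nat.card E else 0) else 1 := by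
      intro P
      split_ifs with h1 h2
      · exact card_line_all _ _ _ (by rw [h1]; simp) (by rw [h1, h2, zero_pow ha.ne', zero_pow hb.ne'])
      · exact card_line_none _ _ _ (by rw [h1]; simp) (by
          rw [h1, zero_pow ha.ne']
          exact (pow_ne_zero _ h2).symm)
      · exact card_line_one _ _ _ (by simpa using h1)
    rw [Finset.sum_congr rfl fun P _ => h1 P, Fintype.sum_prod_type_right]
    have h2 : ∀ x : E, ∑ y : E, (if x = 0 then (if y = 0 then Nat.card E else 0) else 1) = Nat.card E := by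
      intro x
      split_ifs with hx
      · rw [Finset.sum_ite_eq' Finset.univ (0 : E) fun _ => Nat.card E, if_pos (Finset.mem_univ _)]
      · rw [Finset.sum_const, Finset.card_univ, smul_eq_mul, mul_one, Nat.card_eq_fintype_card]
    rw [Finset.sum_congr rfl fun x _ => h2 x, Finset.sum_const, Finset.card_univ, smul_eq_mul, sq,
      Nat.card_eq_fintype_card]

/-- the involution -/
theorem inv_ne {t : E} (ht : t ≠ 1) : t / (t - 1) ≠ 1 := by
  have h : t - 1 ≠ 0 := sub_ne_zero.2 ht
  intro h1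
  rw [div_eq_one_iff_eq h] at h1
  have : (1 : E) = 0 := by linear_combination h1
  exact one_ne_zero this

theorem inv_inv' {t : E} (ht : t ≠ 1) : t / (t - 1) / (t / (t - 1) - 1) = t := by
  have h : t - 1 ≠ 0 := sub_ne_zero.2 ht
  have h2 : t / (t - 1) - 1 = 1 / (t - 1) := by
    field_simp
    ring
  rw [h2]
  field_simp

/-- **The number of the points of the seed.** -/
theorem seed_count [Fintype E] {a b i j w n : ℕ} (ha : 0 < a) (hb : 0 < b) (hab : Nat.Coprime a b)
    (h : Mid i j) (hw : a * i + b * j + w = a * b) (hn : 1 < n * w) :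
    ∑ t : E, cc a b i j (t * (t - 1) ^ (n * w - 1)) + cc a b i j (1 : E) =
      Nat.card E ^ 2 + Nat.card E := by
  classical
  have h1 : ∀ t : E, t ≠ 1 → cc a b i j (t * (t - 1) ^ (n * w - 1)) = cc a b i j (t / (t - 1)) := by
    intro t ht
    have h : t - 1 ≠ 0 := sub_ne_zero.2 ht
    have e : t * (t - 1) ^ (n * w - 1) = ((t - 1) ^ n) ^ w * (t / (t - 1)) := by
      rw [← pow_mul]
      obtain ⟨m, hm⟩ : ∃ m, n * w = m + 1 := ⟨n * w - 1, by omega⟩
      rw [hm, Nat.add_sub_cancel, pow_succ]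
      field_simp
    rw [e, cc_scale hw (pow_ne_zero _ h)]
  have h2 : ∑ t : E, cc a b i j (t * (t - 1) ^ (n * w - 1)) =
      cc a b i j (0 : E) + ∑ t ∈ Finset.univ.erase (1 : E), cc a b i j (t / (t - 1)) := by
    rw [← Finset.add_sum_erase Finset.univ _ (Finset.mem_univ (1 : E))]
    congr 1
    · rw [sub_self, zero_pow (by omega), mul_zero]
    · exact Finset.sum_congr rfl fun t ht => h1 t (Finset.ne_of_mem_erase ht)
  have h3 : ∑ t ∈ Finset.univ.erase (1 : E), cc a b i j (t / (t - 1)) =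
      ∑ t ∈ Finset.univ.erase (1 : E), cc a b i j t := by
    refine Finset.sum_nbij' (fun t => t / (t - 1)) (fun t => t / (t - 1)) ?_ ?_ ?_ ?_ ?_
    · intro t ht
      exact Finset.mem_erase.2 ⟨inv_ne (Finset.ne_of_mem_erase ht), Finset.mem_univ _⟩
    · intro t ht
      exact Finset.mem_erase.2 ⟨inv_ne (Finset.ne_of_mem_erase ht), Finset.mem_univ _⟩
    · intro t ht
      exact inv_inv' (Finset.ne_of_mem_erase ht)
    · intro t ht
      exact inv_inv' (Finset.ne_of_mem_erase ht)
    · intro t ht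
      rfl
  have h4 := Finset.add_sum_erase Finset.univ (fun u : E => cc a b i j u) (Finset.mem_univ (1 : E))
  rw [sum_cc_mid ha hb h] at h4
  rw [h2, h3, cc_zero ha hb hab, ← h4]
  ring

end pencil

end Pool.Agent.H11.CB
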