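import Pool.Agent.H11.CB.Tot
import Mathlib.RingTheory.Ideal.Quotient.Index

/-!
A positive proportion of the curves.
-/

set_option autoImplicit false
set_option linter.unusedSectionVars false

open Polynomial

namespace Pool.Agent.H11.CB

open Pool.Agent.H11.CB.Stm

theorem Fit.map {K L : Type} [Field K] [Field L] (φ : K →+* L) {a b : ℕ} {z : ℕ × ℕ} (h : Fit K a b z) :
    Fit L a b z := by
  have h1 : ∀ m : ℕ, (m : L) = 0 ↔ (m : K) = 0 := by
    intro m
    rw [← map_natCast φ, map_eq_zero]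
  rcases h with ⟨h, h2, h3⟩ | ⟨h, h2, h3⟩ | ⟨h, h2, h3⟩
  · exact Or.inl ⟨h, fun e => h2 ((h1 _).1 e), fun e => h3 ((h1 _).1 e)⟩
  · exact Or.inr (Or.inl ⟨h, (h1 _).2 h2, fun e => h3 ((h1 _).1 e)⟩)
  · exact Or.inr (Or.inr ⟨h, (h1 _).2 h2, fun e => h3 ((h1 _).1 e)⟩)

theorem exists_fit {K : Type} [Field K] {a b : ℕ} (hab : Nat.Coprime a b) {S : Finset (ℕ × ℕ)}
    (h0 : (0, 0) ∈ S) (h1 : (b : K) = 0 → (1, 0) ∈ S) (h2 : (a : K) = 0 → (0, 1) ∈ S) :
    ∃ z ∈ S, Fit K a b z := by
  by_cases hb : (b : K) = 0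
  · refine ⟨(1, 0), h1 hb, Or.inr (Or.inl ⟨rfl, hb, ?_⟩)⟩
    intro ha
    obtain ⟨u, v, huv⟩ := bez hab
    have := congrArg (Int.cast : ℤ → K) huv
    push_cast at this
    rw [ha, hb, zero_mul, zero_mul, add_zero] at this
    exact zero_ne_one this
  · by_cases ha : (a : K) = 0
    · exact ⟨(0, 1), h2 ha, Or.inr (Or.inr ⟨rfl, ha, hb⟩)⟩
    · exact ⟨(0, 0), h0, Or.inl ⟨rfl, ha, hb⟩⟩

theorem three_le_wt {a b : ℕ} (ha : 1 < a) (hb : 1 < b) (hab : Nat.Coprime a b) {z : ℕ × ℕ}
    (hz : Mid z.1 z.2) : 3 ≤ wt a b z := by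
  have hne : a ≠ b := by
    rintro rfl
    rw [Nat.coprime_self] at hab
    omega
  rw [wt]
  have h6 : 6 ≤ a * b := by
    rcases Nat.lt_or_gt_of_ne hne with h | h
    · calc 6 = 2 * 3 := rfl
        _ ≤ a * b := Nat.mul_le_mul (by omega) (by omega)
    · calc 6 = 3 * 2 := rfl
        _ ≤ a * b := Nat.mul_le_mul (by omega) (by omega)
  rcases hz with ⟨h1, h2⟩ | ⟨h1, h2⟩ | ⟨h1, h2⟩
  · rw [h1, h2]
    omega
  · rw [h1, h2, mul_one, mul_zero, add_zero]
    obtain ⟨b', rfl⟩ : ∃ b', b = b' + 1 := ⟨b - 1, by omega⟩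
    have : a * (b' + 1) - a = a * b' := by rw [mul_add, mul_one, Nat.add_sub_cancel]
    rw [this]
    rcases Nat.lt_or_ge 1 b' with h | h
    · calc 3 ≤ 2 * 2 := by norm_num
        _ ≤ a * b' := Nat.mul_le_mul (by omega) (by omega)
    · have : b' = 1 := by omega
      rw [this] at hne ⊢
      omega
  · rw [h1, h2, mul_one, mul_zero, zero_add]
    obtain ⟨a', rfl⟩ : ∃ a', a = a' + 1 := ⟨a - 1, by omega⟩
    have : (a' + 1) * b - b = a' * b := by rw [add_mul, one_mul, Nat.add_sub_cancel]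
    rw [this]
    rcases Nat.lt_or_ge 1 a' with h | h
    · calc 3 ≤ 2 * 2 := by norm_num
        _ ≤ a' * b := Nat.mul_le_mul (by omega) (by omega)
    · have : a' = 1 := by omega
      rw [this] at hne ⊢
      omega

section main

variable {k : Type} [Field k] [Finite k] {A : Type} [CommRing A] [IsDomain A] [Algebra k A]
  [Algebra.FiniteType k A]

theorem exists_point (hA : ¬ Module.Finite k A) {a₀ : A} (ha₀ : a₀ ≠ 0) :
    ∃ c : MaximalSpectrum A, a₀ ∉ c.asIdeal ∧ Finite (A ⧸ c.asIdeal) ∧ Finite (A ⧸ c.asIdeal ^ 2) ∧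
      ∃ η ∈ c.asIdeal, η ∉ c.asIdeal ^ 2 := by
  have hN : IsNoetherianRing A := Algebra.FiniteType.isNoetherianRing k A
  have hJ : IsJacobsonRing A := isJacobsonRing_of_finiteType (A := k)
  have h1 : (⊥ : Ideal A).jacobson = ⊥ :=
    (isJacobsonRing_iff.1 hJ) (⊥ : Ideal A) (Ideal.isPrime_bot (α := A)).isRadical
  have h2 : a₀ ∉ (⊥ : Ideal A).jacobson := by
    rw [h1]
    exact ha₀
  rw [Ideal.jacobson, Submodule.mem_sInf] at h2
  push Not at h2
  obtain ⟨m, ⟨-, hm⟩, hm2⟩ := h2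
  have hfin : Module.Finite k (A ⧸ m) := by
    let := Ideal.Quotient.field m
    exact finite_of_finite_type_of_isJacobsonRing k (A ⧸ m)
  have hf : Finite (A ⧸ m) := Module.finite_of_finite k
  have hf2 : Finite (A ⧸ m ^ 2) := Ideal.finite_quotient_pow (IsNoetherian.noetherian m) 2
  refine ⟨⟨m, hm⟩, hm2, hf, hf2, ?_⟩
  by_contra hcon
  push Not at hcon
  have hbot : m ≠ ⊥ := by
    intro h
    apply hA
    rw [h] at hfin
    exact Module.Finite.equiv (AlgEquiv.quotientBot k A).toLinearEquiv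
  have h3 : IsIdempotentElem m := by
    rw [IsIdempotentElem, ← sq]
    exact le_antisymm (Ideal.pow_le_self two_ne_zero) hcon
  obtain ⟨e, he, hme⟩ := (Ideal.isIdempotentElem_iff_of_fg m (IsNoetherian.noetherian m)).1 h3
  rcases IsIdempotentElem.iff_eq_zero_or_one.1 he with h4 | h4
  · apply hbot
    rw [hme, h4]
    exact Ideal.span_singleton_eq_bot.2 rfl
  · apply hm.ne_top
    rw [hme, h4]
    exact Ideal.span_singleton_one

theorem spec_lift {S : Finset (ℕ × ℕ)} {z₀ : ℕ × ℕ} {e : ℕ} {c : MaximalSpectrum A} {η : A}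
    (hη : η ∈ c.asIdeal) {D : S → A[X]}
    (hD : ∀ z j, (lift S z₀ e η z).coeff j - (D z).coeff j ∈ c.asIdeal ^ 2) :
    (fun z => spec c (D z)) = seed (FieldAt c) S z₀ e := by
  funext z
  obtain ⟨φ, hφ⟩ : ∃ φ : A →+* FieldAt c, φ = (Ideal.Quotient.mk c.asIdeal : A →+* FieldAt c) :=
    ⟨_, rfl⟩
  have hs : ∀ g : A[X], spec c g = g.map φ := fun g => by rw [hφ]; rfl
  have hφ0 : ∀ u ∈ c.asIdeal, φ u = 0 := fun u hu => by
    rw [hφ]
    exact Ideal.Quotient.eq_zero_iff_mem.2 hu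
  have h1 : spec c (D z) = spec c (lift S z₀ e η z) := by
    rw [hs, hs]
    refine Polynomial.ext fun j => ?_
    rw [coeff_map, coeff_map]
    have := hφ0 _ (Ideal.pow_le_self two_ne_zero (hD z j))
    rw [map_sub, sub_eq_zero] at this
    exact this.symm
  rw [h1, hs, lift, seed, seed, Polynomial.map_add]
  have h2 : (if z.1 = (0, 0) then C η else 0 : A[X]).map φ = 0 := by
    split_ifs
    · rw [map_C, hφ0 η hη, C_0]
    · rw [Polynomial.map_zero]
  rw [h2, add_zero]
  split_ifs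
  · simp
  · rw [Polynomial.map_zero]

/-- **A positive proportion is settled.** -/
theorem main (hA : ¬ Module.Finite k A) {a b n : ℕ} (ha : 1 < a) (hb : 1 < b) (hab : Nat.Coprime a b)
    (hn : 0 < n) {S : Finset (ℕ × ℕ)} (hS : ∀ z ∈ S, a * z.1 + b * z.2 < a * b) (h0 : (0, 0) ∈ S)
    (h1 : (b : k) = 0 → (1, 0) ∈ S) (h2 : (a : k) = 0 → (0, 1) ∈ S) {a₀ : A} (ha₀ : a₀ ≠ 0) :
    ∃ M : ℕ, ∃ H₀ : Submodule k A, Module.Finite k H₀ ∧ ∀ H : Submodule k A, H₀ ≤ H →
      Module.Finite k H → (curves a b S H n).Finite ∧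
        (curves a b S H n).ncard ≤ M * {D | D ∈ curves a b S H n ∧
          ∃ c : MaximalSpectrum A, a₀ ∉ c.asIdeal ∧ Settled a b S n c D}.ncard := by
  classical
  obtain ⟨c, hc0, hcf, hcf2, η, hη, hη2⟩ := exists_point hA ha₀
  obtain ⟨z₀, hz₀, hfit⟩ := exists_fit (K := k) hab h0 h1 h2
  have hF : Finite (FieldAt c) := hcf
  have hw3 := three_le_wt ha hb hab hfit.mid
  have hnw : 3 ≤ n * wt a b z₀ := hw3.trans (Nat.le_mul_of_pos_left _ hn)
  set e := n * wt a b z₀ - 1 with he
  set D₀ := lift S z₀ e η with hD₀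
  have hfitF : Fit (FieldAt c) a b z₀ :=
    hfit.map ((Ideal.Quotient.mk c.asIdeal : A →+* FieldAt c).comp (algebraMap k A))
  have hsettled : ∀ D : S → A[X], (∀ z j, (D₀ z).coeff j - (D z).coeff j ∈ c.asIdeal ^ 2) →
      Settled a b S n c D := by
    intro D hD
    have hsp := spec_lift hη hD
    refine ⟨?_, regular_congr hD (regular_lift (k := k) ha hb h0 hz₀ hfit (by omega) hη hη2), ?_⟩
    · rw [hsp]
      exact smooth_seed (by omega) (by omega) hz₀ hfitF (by omega)
    · intro w _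
      rw [hsp]
      exact nonvan_seed (by omega) (by omega) hab hz₀ hfit.mid (hS z₀ hz₀) (by omega) w
  have hdeg₀ : ∀ z : S, ∀ j, n * wt a b z < j → (D₀ z).coeff j = 0 := by
    intro z j hj
    rw [hD₀, lift, seed, coeff_add]
    have e1 : (if z.1 = z₀ then X * (X - 1) ^ e else 0 : A[X]).coeff j = 0 := by
      split_ifs with h
      · refine coeff_eq_zero_of_natDegree_lt ?_
        rw [natDegree_seed]
        rw [h] at hj
        omega
      · rw [coeff_zero]
    have e2 : (if z.1 = (0, 0) then C η else 0 : A[X]).coeff j = 0 := by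
      split_ifs with h
      · rw [coeff_C, if_neg (by omega)]
      · rw [coeff_zero]
    rw [e1, e2, add_zero]
  set R := A ⧸ c.asIdeal ^ 2
  set π : A →+* R := Ideal.Quotient.mk (c.asIdeal ^ 2) with hπ
  set σ : R → A := Function.surjInv (Ideal.Quotient.mk_surjective (I := c.asIdeal ^ 2)) with hσ
  have hπσ : ∀ r, π (σ r) = r := Function.surjInv_eq Ideal.Quotient.mk_surjective
  refine ⟨Nat.card (∀ z : S, Fin (n * wt a b z + 1) → R), Submodule.span k (Set.range σ),
    Module.Finite.iff_fg.2 ⟨(Set.finite_range σ).toFinset, by rw [Set.Finite.coe_toFinset]⟩,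
    fun H hle hHf => ?_⟩
  have hHfin : Finite H := Module.finite_of_finite k
  have hfin : (curves a b S H n).Finite := by
    refine Set.finite_coe_iff.1 (Finite.of_injective
      (fun D : curves a b S H n => fun (z : S) (j : Fin (n * wt a b z + 1)) =>
        (⟨(D.1 z).coeff j, (D.2 z).2 j⟩ : H)) ?_)
    intro D D' h
    apply Subtype.ext
    funext z
    refine Polynomial.ext fun j => ?_
    by_cases hj : j < n * wt a b z + 1
    · have := congrFun (congrFun h z) ⟨j, hj⟩
      exact congrArg Subtype.val this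
    · rw [coeff_eq_zero_of_natDegree_lt (((D.2 z).1).trans_lt (by omega)),
        coeff_eq_zero_of_natDegree_lt (((D'.2 z).1).trans_lt (by omega))]
  refine ⟨hfin, ?_⟩
  set G := {D | D ∈ curves a b S H n ∧ ∃ c : MaximalSpectrum A, a₀ ∉ c.asIdeal ∧ Settled a b S n c D}
    with hG
  have hGf : G.Finite := hfin.subset fun D hD => hD.1
  have hGfin : Finite G := Set.finite_coe_iff.2 hGf
  have hcfin : Finite (curves a b S H n) := Set.finite_coe_iff.2 hfin
  -- the correction
  set corr : (∀ z : S, Fin (n * wt a b z + 1) → R) → S → A[X] := fun ρ z =>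
    ∑ j : Fin (n * wt a b z + 1), monomial (j : ℕ) (σ (π ((D₀ z).coeff j) - ρ z j)) with hcorr
  have hcc : ∀ ρ z j, (corr ρ z).coeff j =
      if hj : j < n * wt a b z + 1 then σ (π ((D₀ z).coeff j) - ρ z ⟨j, hj⟩) else 0 := by
    intro ρ z j
    rw [hcorr]
    dsimp only
    rw [finsetSum_coeff]
    split_ifs with hj
    · rw [Finset.sum_eq_single (⟨j, hj⟩ : Fin (n * wt a b z + 1))]
      · rw [coeff_monomial, if_pos rfl]
      · intro i _ hi
        rw [coeff_monomial, if_neg fun h => hi (Fin.ext h)]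
      · intro h
        exact absurd (Finset.mem_univ _) h
    · refine Finset.sum_eq_zero fun i _ => ?_
      rw [coeff_monomial, if_neg fun h : (i : ℕ) = j => hj (h ▸ i.2)]
  have hσH : ∀ r, σ r ∈ H := fun r => hle (Submodule.subset_span ⟨r, rfl⟩)
  set res : (S → A[X]) → (∀ z : S, Fin (n * wt a b z + 1) → R) := fun D z j => π ((D z).coeff j)
    with hres
  have hmem : ∀ D ∈ curves a b S H n, (fun z => D z + corr (res D) z) ∈ G := by
    intro D hD
    have hcd : ∀ z : S, (corr (res D) z).natDegree ≤ n * wt a b z := by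
      intro z
      rw [natDegree_le_iff_coeff_eq_zero]
      intro j hj
      rw [hcc, dif_neg (by omega)]
    refine ⟨fun z => ⟨(natDegree_add_le _ _).trans (max_le (hD z).1 (hcd z)), fun j => ?_⟩, c, hc0,
      hsettled _ fun z j => ?_⟩
    · rw [coeff_add, hcc]
      refine H.add_mem ((hD z).2 j) ?_
      split_ifs
      · exact hσH _
      · exact H.zero_mem
    · rw [← Ideal.Quotient.eq_zero_iff_mem, coeff_add, map_sub, map_add, hcc]
      split_ifs with hj
      · have := hπσ (π ((D₀ z).coeff j) - res D z ⟨j, hj⟩)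
        rw [hπ] at this ⊢
        rw [this, hres]
        dsimp only
        rw [← hπ]
        ring
      · rw [hdeg₀ z j (by omega), coeff_eq_zero_of_natDegree_lt (((hD z).1).trans_lt (by omega))]
        simp
  have hinj : Nat.card (curves a b S H n) ≤
      Nat.card ((∀ z : S, Fin (n * wt a b z + 1) → R) × G) := by
    refine Nat.card_le_card_of_injective
      (fun D : curves a b S H n => (res D.1, (⟨_, hmem D.1 D.2⟩ : G))) ?_
    intro D D' h
    rw [Prod.mk.injEq, Subtype.mk.injEq] at h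
    obtain ⟨h1, h2⟩ := h
    apply Subtype.ext
    funext z
    have h3 := congrFun h2 z
    rw [h1] at h3
    exact add_right_cancel h3
  rw [Nat.card_prod] at hinj
  exact hinj

end main

end Pool.Agent.H11.CB
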