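import Mathlib

/-!
# Curves `y ^ a = x ^ b + …` over the function field of `Y × 𝔸¹` and their specialisations

Definitions. `Y = Spec A` is a variety over a finite field, `a` and `b` are coprime numbers, and the
curves are given by the equations `y ^ a = x ^ b + ∑ c_(i,j) x ^ i y ^ j` with `c_(i,j)` in `A[t]`, the
sum over a set `S` of pairs `(i, j)` with `a i + b j < a b`.
-/

set_option autoImplicit false

open Polynomial

namespace Pool.Agent.H11.CB.Stm

/-- The value `y ^ a - x ^ b - ∑ c_(i,j) x ^ i y ^ j` of the equation at `(x, y)`. -/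
def eqn (a b : ℕ) (S : Finset (ℕ × ℕ)) {R : Type} [CommRing R] (c : S → R) (x y : R) : R :=
  y ^ a - x ^ b - ∑ z : S, c z * x ^ z.1.1 * y ^ z.1.2

/-- The number `a b - a i - b j` for `z = (i, j)`; the coefficient of `x ^ i y ^ j` has a degree at most
`n` times this number. -/
def wt (a b : ℕ) (z : ℕ × ℕ) : ℕ := a * b - (a * z.1 + b * z.2)

section field

variable {F : Type} [Field F]

/-- The subfield with `q ^ r` elements of the algebraic closure of the field `F` with `q` elements. -/
def layer (F : Type) [Field F] (r : ℕ) : Set (AlgebraicClosure F) := {x | x ^ (Nat.card F ^ r) = x}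

/-- The number of the points over the extension of degree `r` of the finite field `F`, outside the
section at infinity, of the surface `y ^ a = x ^ b + ∑ c_(i,j) x ^ i y ^ j` over the `t`-line
`ℙ¹`: those above `t ≠ ∞`, and those above `t = ∞`, where the equation is the one with the
coefficients of the `c_(i,j)` in the degrees `n (a b - a i - b j)`. -/
noncomputable def points (a b : ℕ) (S : Finset (ℕ × ℕ)) (n : ℕ) (c : S → F[X]) (r : ℕ) : ℕ :=
  Nat.card {P : AlgebraicClosure F × AlgebraicClosure F × AlgebraicClosure F //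
    P.1 ∈ layer F r ∧ P.2.1 ∈ layer F r ∧ P.2.2 ∈ layer F r ∧
      eqn a b S (fun z => aeval P.2.2 (c z)) P.1 P.2.1 = 0} +
  Nat.card {P : AlgebraicClosure F × AlgebraicClosure F // P.1 ∈ layer F r ∧ P.2 ∈ layer F r ∧
    eqn a b S (fun z => algebraMap F (AlgebraicClosure F) ((c z).coeff (n * wt a b z))) P.1 P.2 = 0}

/-- The `L`-function in `T = q ^ (-s)` of the curve over `F(t)`, which is the essential part of the zeta
function of the surface: the exponential of `∑ (q ^ (2 r) + q ^ r - N_r) T ^ r / r`, with `N_r` the number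
of the points over the extension of degree `r`. -/
noncomputable def Lfun (a b : ℕ) (S : Finset (ℕ × ℕ)) (n : ℕ) (c : S → F[X]) : PowerSeries ℂ :=
  (PowerSeries.exp ℂ).subst (PowerSeries.mk fun r : ℕ =>
    ((Nat.card F : ℂ) ^ (2 * r) + (Nat.card F : ℂ) ^ r - (points a b S n c r : ℂ)) / (r : ℂ))

/-- The rational function `L(T)` vanishes at `T = z`: `Q(T) L(T) = (T - z) P(T)` with polynomials `P` and
`Q` such that `Q(z) ≠ 0`. -/
def VanishesAt (a b : ℕ) (S : Finset (ℕ × ℕ)) (n : ℕ) (c : S → F[X]) (z : ℂ) : Prop :=
  ∃ P Q : ℂ[X], Q.eval z ≠ 0 ∧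
    (Q : PowerSeries ℂ) * Lfun a b S n c = (((X - C z) * P : ℂ[X]) : PowerSeries ℂ)

open MvPolynomial in
/-- The fibre above `t = ∞` is smooth: its equation over the algebraic closure does not lie in the square
of a maximal ideal. -/
def SmoothAtInfinity (a b : ℕ) (S : Finset (ℕ × ℕ)) (n : ℕ) (c : S → F[X]) : Prop :=
  ∀ 𝔪 : Ideal (MvPolynomial (Fin 2) (AlgebraicClosure F)), 𝔪.IsMaximal →
    eqn a b S (fun z => MvPolynomial.C
      (algebraMap F (AlgebraicClosure F) ((c z).coeff (n * wt a b z)))) (X 0) (X 1) ∉ 𝔪 ^ 2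

end field

section base

variable {k : Type} [Field k] {A : Type} [CommRing A] [Algebra k A]

/-- The residue field of a closed point of `Y = Spec A`. -/
def FieldAt (c : MaximalSpectrum A) : Type := A ⧸ c.asIdeal

attribute [local instance] MaximalSpectrum.isMaximal in
noncomputable instance fieldAtField (c : MaximalSpectrum A) : Field (FieldAt c) :=
  Ideal.Quotient.field c.asIdeal

/-- The specialisation at `c` of a polynomial with coefficients in `A`. -/
noncomputable def spec (c : MaximalSpectrum A) (g : A[X]) : (FieldAt c)[X] :=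
  g.map (Ideal.Quotient.mk c.asIdeal : A →+* FieldAt c)

/-- The total space of the family, in the space with the coordinates `x`, `y`, `t` over `Y`, is regular
at all of its points above `c` (for `Y` regular at `c`): the equation does not lie in the square of a
maximal ideal above `c`. -/
def RegularAbove (a b : ℕ) (S : Finset (ℕ × ℕ)) (c : MaximalSpectrum A) (D : S → A[X]) : Prop :=
  ∀ 𝔫 : Ideal (MvPolynomial (Fin 3) A), 𝔫.IsMaximal → (∀ u ∈ c.asIdeal, MvPolynomial.C u ∈ 𝔫) →
    eqn a b S (fun z => aeval (MvPolynomial.X 2 : MvPolynomial (Fin 3) A) (D z)) (MvPolynomial.X 0)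
      (MvPolynomial.X 1) ∉ 𝔫 ^ 2

/-- The curve with the coefficients `D` is settled at the closed point `c` of `Y`: its specialisation has
a smooth fibre at `t = ∞`, the total space is regular above `c`, and the `L`-function of the
specialisation has no zero with `|T| = q⁻¹`, that is, on the line `Re s = 1`. -/
structure Settled (a b : ℕ) (S : Finset (ℕ × ℕ)) (n : ℕ) (c : MaximalSpectrum A) (D : S → A[X]) :
    Prop where
  infinity : SmoothAtInfinity a b S n fun z => spec c (D z)
  regular : RegularAbove a b S c D
  nonvanishing : ∀ z : ℂ, ‖z‖ = (Nat.card (FieldAt c) : ℝ)⁻¹ →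
    ¬ VanishesAt a b S n (fun z => spec c (D z)) z

/-- The systems of polynomials `D_z` in `t`, `z` in `S`, of degrees at most `n (a b - a i - b j)`, with
coefficients in `H`. -/
def curves (a b : ℕ) (S : Finset (ℕ × ℕ)) (H : Submodule k A) (n : ℕ) : Set (S → A[X]) :=
  {D | ∀ z : S, (D z).natDegree ≤ n * wt a b z ∧ ∀ j, (D z).coeff j ∈ H}

end base

end Pool.Agent.H11.CB.Stm
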