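import Pool.Agent.H11.CB.Cnt
import Pool.Agent.H11.CB.Stm

/-!
The number of the points of the seed.
-/

set_option autoImplicit false

open Polynomial

namespace Pool.Agent.H11.CB

open Pool.Agent.H11.CB.Stm

section sub

variable (F : Type) [Field F] [Finite F]

theorem exists_subfield {r : ℕ} (hr : 0 < r) :
    ∃ K : Subfield (AlgebraicClosure F), (∀ x, x ∈ K ↔ x ∈ layer F r) ∧ Nat.card K = Nat.card F ^ r := by
  classical
  have := Fintype.ofFinite F
  obtain ⟨p, hpc, m, hp, hcard⟩ := FiniteField.card' F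
  have hpf : Fact p.Prime := ⟨hp⟩
  have hΩ : CharP (AlgebraicClosure F) p := charP_of_injective_algebraMap
    (algebraMap F (AlgebraicClosure F)).injective p
  have hq : Nat.card F ^ r = p ^ ((m : ℕ) * r) := by
    rw [Nat.card_eq_fintype_card, hcard, pow_mul]
  have hmr : 0 < (m : ℕ) * r := Nat.mul_pos m.pos hr
  set K : Subfield (AlgebraicClosure F) :=
    (iterateFrobenius (AlgebraicClosure F) p ((m : ℕ) * r)).eqLocusField (RingHom.id _) with hK
  have hmem : ∀ x, x ∈ K ↔ x ∈ layer F r := by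
    intro x
    rw [hK, RingHom.mem_eqLocusField, iterateFrobenius_def, RingHom.id_apply, layer, Set.mem_ofPred_eq, hq]
  refine ⟨K, hmem, ?_⟩
  have hq1 : 1 < p ^ ((m : ℕ) * r) := Nat.one_lt_pow hmr.ne' hp.one_lt
  set f : (AlgebraicClosure F)[X] := X ^ (p ^ ((m : ℕ) * r)) - X with hf
  have hdeg : f.natDegree = p ^ ((m : ℕ) * r) := by
    rw [hf, FiniteField.X_pow_card_sub_X_natDegree_eq _ hq1]
  have hf0 : f ≠ 0 := by
    intro h
    rw [h, natDegree_zero] at hdeg
    omega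
  have hsep : f.Separable := galois_poly_separable p _ (dvd_pow_self p hmr.ne')
  have h1 : Fintype.card (f.rootSet (AlgebraicClosure F)) = f.natDegree :=
    card_rootSet_eq_natDegree hsep (IsAlgClosed.splits_domain _)
  rw [hq, ← hdeg, ← h1, ← Nat.card_eq_fintype_card]
  refine Nat.card_congr (Equiv.subtypeEquivRight fun x => ?_)
  rw [hmem, layer, Set.mem_ofPred_eq, hq, mem_rootSet, hf]
  constructor
  · intro h
    refine ⟨hf0, ?_⟩
    rw [map_sub, map_pow, aeval_X, h, sub_self]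
  · rintro ⟨-, h⟩
    rwa [map_sub, map_pow, aeval_X, sub_eq_zero] at h

end sub

section seed

/-- the coefficients of the seed -/
noncomputable def seed (R : Type) [CommRing R] (S : Finset (ℕ × ℕ)) (z₀ : ℕ × ℕ) (e : ℕ) : S → R[X] :=
  fun z => if z.1 = z₀ then X * (X - 1) ^ e else 0

theorem eqn_seed (a b : ℕ) {S : Finset (ℕ × ℕ)} {z₀ : ℕ × ℕ} (hz₀ : z₀ ∈ S) {R : Type} [CommRing R]
    (s x y : R) :
    eqn a b S (fun z => if z.1 = z₀ then s else 0) x y = y ^ a - x ^ b - s * (x ^ z₀.1 * y ^ z₀.2) := by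
  rw [eqn, Finset.sum_eq_single (⟨z₀, hz₀⟩ : S)]
  · rw [if_pos rfl, mul_assoc]
  · intro z _ hz
    rw [if_neg (fun h => hz (Subtype.ext h)), zero_mul, zero_mul]
  · intro h
    exact absurd (Finset.mem_univ _) h

variable {F : Type} [Field F] [Finite F]

theorem natDegree_seed {R : Type} [CommRing R] [Nontrivial R] (e : ℕ) :
    ((X : R[X]) * (X - 1) ^ e).natDegree = e + 1 := by
  have h1 : ((X : R[X]) - 1).Monic := by
    rw [← C_1]
    exact monic_X_sub_C 1
  rw [(monic_X).natDegree_mul (h1.pow e), natDegree_X, h1.natDegree_pow, ← C_1, natDegree_X_sub_C,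
    mul_one, add_comm]

theorem coeff_seed {R : Type} [CommRing R] [Nontrivial R] (e : ℕ) :
    ((X : R[X]) * (X - 1) ^ e).coeff (e + 1) = 1 := by
  have h1 : ((X : R[X]) - 1).Monic := by
    rw [← C_1]
    exact monic_X_sub_C 1
  have h2 := (monic_X.mul (h1.pow e)).coeff_natDegree
  rwa [natDegree_seed] at h2

theorem points_seed {a b : ℕ} (ha : 0 < a) (hb : 0 < b) (hab : Nat.Coprime a b) {S : Finset (ℕ × ℕ)}
    {z₀ : ℕ × ℕ} (hz₀ : z₀ ∈ S) (hmid : Mid z₀.1 z₀.2) (hw : a * z₀.1 + b * z₀.2 < a * b) {n : ℕ}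
    (hn : 1 < n * wt a b z₀) {r : ℕ} (hr : 0 < r) :
    points a b S n (seed F S z₀ (n * wt a b z₀ - 1)) r =
      (Nat.card F) ^ (2 * r) + (Nat.card F) ^ r := by
  classical
  obtain ⟨K, hK, hcard⟩ := exists_subfield F hr
  have hqr : 0 < Nat.card F ^ r := pow_pos Nat.card_pos _
  have hKf : Finite K := Nat.finite_of_card_ne_zero (by rw [hcard]; exact hqr.ne')
  have := Fintype.ofFinite K
  set w := wt a b z₀ with hwdef
  have hw' : a * z₀.1 + b * z₀.2 + w = a * b := by
    rw [hwdef, wt]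
    omega
  have key := seed_count (E := K) ha hb hab hmid hw' hn
  rw [hcard] at key
  rw [pow_mul', ← key, points]
  congr 1
  · have e1 : ∀ P : AlgebraicClosure F × AlgebraicClosure F × AlgebraicClosure F,
        eqn a b S (fun z => aeval P.2.2 (seed F S z₀ (n * w - 1) z)) P.1 P.2.1 =
          P.2.1 ^ a - P.1 ^ b - P.2.2 * (P.2.2 - 1) ^ (n * w - 1) * (P.1 ^ z₀.1 * P.2.1 ^ z₀.2) := by
      intro P
      rw [← eqn_seed a b hz₀]
      congr 1
      funext z
      rw [seed]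
      split_ifs
      · simp
      · simp
    simp only [cc]
    rw [← Nat.card_sigma]
    refine Nat.card_congr
      { toFun := fun P => ⟨⟨P.1.2.2, (hK _).2 P.2.2.2.1⟩,
          ⟨⟨P.1.1, (hK _).2 P.2.1⟩, ⟨P.1.2.1, (hK _).2 P.2.2.1⟩⟩, ?_⟩
        invFun := fun P => ⟨⟨P.2.1.1, P.2.1.2, P.1⟩, (hK _).1 P.2.1.1.2, (hK _).1 P.2.1.2.2,
          (hK _).1 P.1.2, ?_⟩
        left_inv := fun P => rfl
        right_inv := fun P => rfl }
    · have h := P.2.2.2.2
      rw [e1] at h
      apply Subtype.ext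
      push_cast
      linear_combination h
    · rw [e1]
      have h := congrArg Subtype.val P.2.2
      push_cast at h
      dsimp only
      rw [h]
      ring
  · have e1 : ∀ P : AlgebraicClosure F × AlgebraicClosure F,
        eqn a b S (fun z => algebraMap F (AlgebraicClosure F)
          ((seed F S z₀ (n * w - 1) z).coeff (n * wt a b z))) P.1 P.2 =
          P.2 ^ a - P.1 ^ b - 1 * (P.1 ^ z₀.1 * P.2 ^ z₀.2) := by
      intro P
      rw [← eqn_seed a b hz₀]
      congr 1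
      funext z
      rw [seed]
      split_ifs with h
      · rw [h, ← hwdef]
        obtain ⟨m, hm⟩ : ∃ m, n * w = m + 1 := ⟨n * w - 1, by omega⟩
        rw [hm, Nat.add_sub_cancel, coeff_seed, map_one]
      · simp
    rw [cc]
    refine Nat.card_congr
      { toFun := fun P => ⟨⟨⟨P.1.1, (hK _).2 P.2.1⟩, ⟨P.1.2, (hK _).2 P.2.2.1⟩⟩, ?_⟩
        invFun := fun P => ⟨⟨P.1.1, P.1.2⟩, (hK _).1 P.1.1.2, (hK _).1 P.1.2.2, ?_⟩
        left_inv := fun P => rfl
        right_inv := fun P => rfl }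
    · have h := P.2.2.2
      rw [e1] at h
      apply Subtype.ext
      push_cast
      linear_combination h
    · rw [e1]
      have h := congrArg Subtype.val P.2
      push_cast at h
      dsimp only
      rw [h]
      ring

theorem subst_zero' (f : PowerSeries ℂ) :
    f.subst (0 : PowerSeries ℂ) = PowerSeries.C (PowerSeries.constantCoeff f) := by
  ext e
  rw [PowerSeries.coeff_subst' (PowerSeries.HasSubst.of_constantCoeff_zero' (map_zero _)),
    finsum_eq_single _ 0]
  · rw [pow_zero, PowerSeries.coeff_one, PowerSeries.coeff_C, PowerSeries.coeff_zero_eq_constantCoeff,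
      smul_eq_mul]
    split_ifs <;> simp
  · intro d hd
    rw [zero_pow hd, map_zero, smul_zero]

theorem Lfun_seed {a b : ℕ} (ha : 0 < a) (hb : 0 < b) (hab : Nat.Coprime a b) {S : Finset (ℕ × ℕ)}
    {z₀ : ℕ × ℕ} (hz₀ : z₀ ∈ S) (hmid : Mid z₀.1 z₀.2) (hw : a * z₀.1 + b * z₀.2 < a * b) {n : ℕ}
    (hn : 1 < n * wt a b z₀) : Lfun a b S n (seed F S z₀ (n * wt a b z₀ - 1)) = 1 := by
  have h1 : (PowerSeries.mk fun r : ℕ => ((Nat.card F : ℂ) ^ (2 * r) + (Nat.card F : ℂ) ^ r -
      (points a b S n (seed F S z₀ (n * wt a b z₀ - 1)) r : ℂ)) / (r : ℂ)) = 0 := by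
    ext r
    rw [PowerSeries.coeff_mk, map_zero]
    rcases Nat.eq_zero_or_pos r with rfl | hr
    · rw [Nat.cast_zero, div_zero]
    · rw [points_seed ha hb hab hz₀ hmid hw hn hr]
      push_cast
      rw [sub_self, zero_div]
  rw [Lfun, h1, subst_zero', ← PowerSeries.coeff_zero_eq_constantCoeff, PowerSeries.coeff_exp]
  simp

theorem nonvan_seed {a b : ℕ} (ha : 0 < a) (hb : 0 < b) (hab : Nat.Coprime a b) {S : Finset (ℕ × ℕ)}
    {z₀ : ℕ × ℕ} (hz₀ : z₀ ∈ S) (hmid : Mid z₀.1 z₀.2) (hw : a * z₀.1 + b * z₀.2 < a * b) {n : ℕ}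
    (hn : 1 < n * wt a b z₀) (z : ℂ) :
    ¬ VanishesAt a b S n (seed F S z₀ (n * wt a b z₀ - 1)) z := by
  rintro ⟨P, Q, hQ, h⟩
  rw [Lfun_seed ha hb hab hz₀ hmid hw hn, mul_one, Polynomial.coe_inj] at h
  apply hQ
  rw [h, eval_mul, eval_sub, eval_X, eval_C, sub_self, zero_mul]

end seed

end Pool.Agent.H11.CB
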