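import Pool.Agent.H11.CB.Pts

/-!
Regularity of the total space.
-/

set_option autoImplicit false
set_option linter.unusedSectionVars false

open Polynomial

namespace Pool.Agent.H11.CB

open Pool.Agent.H11.CB.Stm

/-- the choice of the middle monomial -/
def Fit (K : Type) [Field K] (a b : ℕ) (z : ℕ × ℕ) : Prop :=
  (z = (0, 0) ∧ (a : K) ≠ 0 ∧ (b : K) ≠ 0) ∨ (z = (1, 0) ∧ (b : K) = 0 ∧ (a : K) ≠ 0) ∨
    (z = (0, 1) ∧ (a : K) = 0 ∧ (b : K) ≠ 0)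

theorem Fit.mid {K : Type} [Field K] {a b : ℕ} {z : ℕ × ℕ} (h : Fit K a b z) : Mid z.1 z.2 := by
  rcases h with ⟨rfl, -, -⟩ | ⟨rfl, -, -⟩ | ⟨rfl, -, -⟩
  · exact Or.inl ⟨rfl, rfl⟩
  · exact Or.inr (Or.inl ⟨rfl, rfl⟩)
  · exact Or.inr (Or.inr ⟨rfl, rfl⟩)

section general

variable {B : Type} [CommRing B]

theorem der_mem (d : Derivation ℤ B B) {𝔫 : Ideal B} {f : B} (hf : f ∈ 𝔫 ^ 2) : d f ∈ 𝔫 := by
  rw [sq] at hf
  refine Submodule.mul_induction_on hf ?_ ?_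
  · intro u hu v hv
    rw [d.leibniz, smul_eq_mul, smul_eq_mul]
    exact 𝔫.add_mem (𝔫.mul_mem_right _ hu) (𝔫.mul_mem_right _ hv)
  · intro u v hu hv
    rw [map_add]
    exact 𝔫.add_mem hu hv

theorem mem_of_pow_unit {𝔫 : Ideal B} (hp : 𝔫.IsPrime) {m e : ℕ} (hm : IsUnit (m : B)) {x : B}
    (h : (m : B) * x ^ e ∈ 𝔫) : x ∈ 𝔫 := by
  have h1 : x ^ e ∈ 𝔫 := by
    rcases hp.mem_or_mem h with h | h
    · exact absurd (𝔫.eq_top_of_isUnit_mem h hm) hp.ne_top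
    · exact h
  exact hp.mem_of_pow_mem e h1

theorem sing {𝔫 : Ideal B} (hp : 𝔫.IsPrime) {dx dy : Derivation ℤ B B} {x y s η : B}
    (h1 : dx x = 1) (h2 : dx y = 0) (h3 : dx s = 0) (h4 : dx η = 0) (h5 : dy x = 0) (h6 : dy y = 1)
    (h7 : dy s = 0) (h8 : dy η = 0) (hη : η ∈ 𝔫) {a b : ℕ} (ha : 0 < a) (hb : 0 < b) {K : Type} [Field K]
    [Algebra K B] {z : ℕ × ℕ} (hz : Fit K a b z)
    (hf : y ^ a - x ^ b - s * (x ^ z.1 * y ^ z.2) - η ∈ 𝔫 ^ 2) : x ∈ 𝔫 ∧ y ∈ 𝔫 ∧ s ∈ 𝔫 := by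
  have hcast : ∀ m : ℕ, (m : B) = algebraMap K B (m : K) := fun m => (map_natCast _ m).symm
  have hunit : ∀ m : ℕ, (m : K) ≠ 0 → IsUnit (m : B) := by
    intro m hm
    rw [hcast]
    exact (isUnit_iff_ne_zero.2 hm).map _
  have hzero : ∀ m : ℕ, (m : K) = 0 → (m : B) = 0 := by
    intro m hm
    rw [hcast, hm, map_zero]
  have hx := der_mem dx hf
  have hy := der_mem dy hf
  have hf1 : y ^ a - x ^ b - s * (x ^ z.1 * y ^ z.2) - η ∈ 𝔫 := Ideal.pow_le_self two_ne_zero hf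
  have pa : dy (y ^ a) = a * y ^ (a - 1) := by
    rw [Derivation.leibniz_pow, h6]
    simp
  have pb : dx (x ^ b) = b * x ^ (b - 1) := by
    rw [Derivation.leibniz_pow, h1]
    simp
  have pa' : dx (y ^ a) = 0 := by
    rw [Derivation.leibniz_pow, h2]
    simp
  have pb' : dy (x ^ b) = 0 := by
    rw [Derivation.leibniz_pow, h5]
    simp
  rw [map_sub, map_sub, map_sub, pa', pb, h4] at hx
  rw [map_sub, map_sub, map_sub, pa, pb', h8] at hy
  rcases hz with ⟨rfl, hak, hbk⟩ | ⟨rfl, hbk, hak⟩ | ⟨rfl, hak, hbk⟩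
  · have e1 : s * (x ^ 0 * y ^ 0) = s := by simp
    rw [e1] at hx hy hf1
    rw [h3] at hx
    rw [h7] at hy
    have hx1 : x ∈ 𝔫 := by
      refine mem_of_pow_unit hp (hunit b hbk) (e := b - 1) ?_
      have := 𝔫.neg_mem hx
      rwa [show -(0 - (b : B) * x ^ (b - 1) - 0 - 0) = b * x ^ (b - 1) by ring] at this
    have hy1 : y ∈ 𝔫 := by
      refine mem_of_pow_unit hp (hunit a hak) (e := a - 1) ?_
      rwa [show (a : B) * y ^ (a - 1) - 0 - 0 - 0 = a * y ^ (a - 1) by ring] at hy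
    refine ⟨hx1, hy1, ?_⟩
    have h := 𝔫.sub_mem (𝔫.sub_mem (𝔫.sub_mem (𝔫.pow_mem_of_mem hy1 a ha) (𝔫.pow_mem_of_mem hx1 b hb))
      hf1) hη
    rwa [show y ^ a - x ^ b - (y ^ a - x ^ b - s - η) - η = s by ring] at h
  · have e1 : s * (x ^ 1 * y ^ 0) = s * x := by simp
    rw [e1] at hx hy hf1
    rw [dx.leibniz, h1, h3] at hx
    rw [dy.leibniz, h5, h7] at hy
    have hy1 : y ∈ 𝔫 := by
      refine mem_of_pow_unit hp (hunit a hak) (e := a - 1) ?_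
      rwa [smul_zero, smul_zero, show (a : B) * y ^ (a - 1) - 0 - (0 + 0) - 0 = a * y ^ (a - 1) by ring]
        at hy
    have hs : s ∈ 𝔫 := by
      have := 𝔫.neg_mem hx
      rwa [smul_zero, smul_eq_mul, hzero b hbk, mul_one,
        show -(0 - 0 * x ^ (b - 1) - (s + 0) - 0) = s by ring] at this
    refine ⟨?_, hy1, hs⟩
    have h := 𝔫.sub_mem (𝔫.sub_mem (𝔫.sub_mem (𝔫.pow_mem_of_mem hy1 a ha) (𝔫.mul_mem_right x hs))
      hf1) hη
    rw [show y ^ a - s * x - (y ^ a - x ^ b - s * x - η) - η = x ^ b by ring] at h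
    exact hp.mem_of_pow_mem b h
  · have e1 : s * (x ^ 0 * y ^ 1) = s * y := by simp
    rw [e1] at hx hy hf1
    rw [dx.leibniz, h2, h3] at hx
    rw [dy.leibniz, h6, h7] at hy
    have hx1 : x ∈ 𝔫 := by
      refine mem_of_pow_unit hp (hunit b hbk) (e := b - 1) ?_
      have := 𝔫.neg_mem hx
      rwa [smul_zero, smul_zero, show -(0 - (b : B) * x ^ (b - 1) - (0 + 0) - 0) = b * x ^ (b - 1) by ring]
        at this
    have hs : s ∈ 𝔫 := by
      have := 𝔫.neg_mem hy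
      rwa [smul_zero, smul_eq_mul, hzero a hak, mul_one,
        show -(0 * y ^ (a - 1) - 0 - (s + 0) - 0) = s by ring] at this
    refine ⟨hx1, ?_, hs⟩
    have h := 𝔫.add_mem (𝔫.add_mem (𝔫.add_mem (𝔫.pow_mem_of_mem hx1 b hb) (𝔫.mul_mem_right y hs))
      hf1) hη
    rw [show x ^ b + s * y + (y ^ a - x ^ b - s * y - η) + η = y ^ a by ring] at h
    exact hp.mem_of_pow_mem a h

end general

end Pool.Agent.H11.CB
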