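import Pool.Agent.H11.CB.Reg

/-!
Regularity of the total space.
-/

set_option autoImplicit false
set_option linter.unusedSectionVars false

open Polynomial

namespace Pool.Agent.H11.CB

open Pool.Agent.H11.CB.Stm

/-- derivations over the integers -/
noncomputable def pd {A : Type} [CommRing A] {m : ℕ} (i : Fin m) :
    Derivation ℤ (MvPolynomial (Fin m) A) (MvPolynomial (Fin m) A) :=
  (MvPolynomial.pderiv i).restrictScalars ℤ

theorem pd_X_self {A : Type} [CommRing A] {m : ℕ} (i : Fin m) :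
    pd (A := A) i (MvPolynomial.X i) = 1 := by
  rw [pd, Derivation.restrictScalars_apply, MvPolynomial.pderiv_X_self]

theorem pd_X_ne {A : Type} [CommRing A] {m : ℕ} {i j : Fin m} (h : j ≠ i) :
    pd (A := A) i (MvPolynomial.X j) = 0 := by
  rw [pd, Derivation.restrictScalars_apply, MvPolynomial.pderiv_X_of_ne h]

theorem pd_C {A : Type} [CommRing A] {m : ℕ} (i : Fin m) (u : A) :
    pd (A := A) i (MvPolynomial.C u) = 0 := by
  rw [pd, Derivation.restrictScalars_apply, MvPolynomial.pderiv_C]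

section infinity

variable {F : Type} [Field F] [Finite F]

theorem smooth_seed {a b : ℕ} (ha : 0 < a) (hb : 0 < b) {S : Finset (ℕ × ℕ)} {z₀ : ℕ × ℕ}
    (hz₀ : z₀ ∈ S) (hfit : Fit F a b z₀) {n : ℕ} (hn : 1 < n * wt a b z₀) :
    SmoothAtInfinity a b S n (seed F S z₀ (n * wt a b z₀ - 1)) := by
  classical
  intro 𝔪 hm hf
  have e1 : eqn a b S (fun z => MvPolynomial.C (algebraMap F (AlgebraicClosure F)
      ((seed F S z₀ (n * wt a b z₀ - 1) z).coeff (n * wt a b z)))) (MvPolynomial.X 0 : MvPolynomial (Fin 2) (AlgebraicClosure F)) (MvPolynomial.X 1) =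
      MvPolynomial.X 1 ^ a - MvPolynomial.X 0 ^ b -
        1 * ((MvPolynomial.X 0) ^ z₀.1 * (MvPolynomial.X 1) ^ z₀.2) := by
    rw [← eqn_seed a b hz₀]
    congr 1
    funext z
    rw [seed]
    split_ifs with h
    · rw [h]
      obtain ⟨m, hm⟩ : ∃ m, n * wt a b z₀ = m + 1 := ⟨n * wt a b z₀ - 1, by omega⟩
      rw [hm, Nat.add_sub_cancel, coeff_seed, map_one, map_one]
    · simp
  rw [e1] at hf
  have := hm.isPrime
  have key := sing this (dx := pd 0) (dy := pd 1) (x := MvPolynomial.X 0) (y := MvPolynomial.X 1)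
    (s := 1) (η := 0) (pd_X_self 0) (pd_X_ne (by decide)) (Derivation.map_one_eq_zero _)
    (map_zero _) (pd_X_ne (by decide)) (pd_X_self 1) (Derivation.map_one_eq_zero _)
    (map_zero _) 𝔪.zero_mem ha hb hfit (by rw [sub_zero]; exact hf)
  exact this.ne_top ((Ideal.eq_top_iff_one _).2 key.2.2)

end infinity

section total

variable {k : Type} [Field k] {A : Type} [CommRing A] [Algebra k A]

/-- the lift of the seed -/
noncomputable def lift (S : Finset (ℕ × ℕ)) (z₀ : ℕ × ℕ) (e : ℕ) (η : A) : S → A[X] :=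
  fun z => seed A S z₀ e z + if z.1 = (0, 0) then C η else 0

theorem eqn_add (a b : ℕ) (S : Finset (ℕ × ℕ)) {R : Type} [CommRing R] (c d : S → R) (x y : R) :
    eqn a b S (fun z => c z + d z) x y = eqn a b S c x y - ∑ z : S, d z * x ^ z.1.1 * y ^ z.1.2 := by
  have h : ∑ z : S, (c z + d z) * x ^ z.1.1 * y ^ z.1.2 =
      ∑ z : S, c z * x ^ z.1.1 * y ^ z.1.2 + ∑ z : S, d z * x ^ z.1.1 * y ^ z.1.2 := by
    rw [← Finset.sum_add_distrib]
    refine Finset.sum_congr rfl fun z _ => ?_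
    ring
  rw [eqn, eqn, h]
  ring

/-- The value at `x = y = 0`, `t = τ`. -/
noncomputable def val (τ : A) : MvPolynomial (Fin 3) A →+* A :=
  MvPolynomial.eval₂Hom (RingHom.id A) ![0, 0, τ]

theorem val_mem {𝔫 : Ideal (MvPolynomial (Fin 3) A)} (hp : 𝔫.IsPrime) {𝔠 : Ideal A} (hc : 𝔠.IsMaximal)
    (hle : ∀ u ∈ 𝔠, MvPolynomial.C u ∈ 𝔫) {τ : A} (h0 : (MvPolynomial.X 0 : MvPolynomial (Fin 3) A) ∈ 𝔫)
    (h1 : (MvPolynomial.X 1 : MvPolynomial (Fin 3) A) ∈ 𝔫)
    (h2 : (MvPolynomial.X 2 - MvPolynomial.C τ : MvPolynomial (Fin 3) A) ∈ 𝔫)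
    {g : MvPolynomial (Fin 3) A} (hg : g ∈ 𝔫) : val τ g ∈ 𝔠 := by
  have e : (Ideal.Quotient.mk 𝔫) = ((Ideal.Quotient.mk 𝔫).comp MvPolynomial.C).comp (val τ) := by
    refine MvPolynomial.ringHom_ext ?_ ?_
    · intro r
      simp [val]
    · intro i
      fin_cases i
      · simpa [val] using (Ideal.Quotient.eq_zero_iff_mem.2 h0)
      · simpa [val] using (Ideal.Quotient.eq_zero_iff_mem.2 h1)
      · simpa [val] using (Ideal.Quotient.eq.2 h2)
  have h3 : MvPolynomial.C (val τ g) ∈ 𝔫 := by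
    rw [← Ideal.Quotient.eq_zero_iff_mem]
    have := RingHom.congr_fun e g
    rw [Ideal.Quotient.eq_zero_iff_mem.2 hg] at this
    exact this.symm
  have h4 : 𝔫.comap MvPolynomial.C = 𝔠 := by
    refine (hc.eq_of_le ?_ fun u hu => hle u hu).symm
    exact (Ideal.comap_isPrime _ 𝔫).ne_top
  rw [← h4]
  exact h3

theorem val_sq_mem {𝔫 : Ideal (MvPolynomial (Fin 3) A)} (hp : 𝔫.IsPrime) {𝔠 : Ideal A} (hc : 𝔠.IsMaximal)
    (hle : ∀ u ∈ 𝔠, MvPolynomial.C u ∈ 𝔫) {τ : A} (h0 : (MvPolynomial.X 0 : MvPolynomial (Fin 3) A) ∈ 𝔫)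
    (h1 : (MvPolynomial.X 1 : MvPolynomial (Fin 3) A) ∈ 𝔫)
    (h2 : (MvPolynomial.X 2 - MvPolynomial.C τ : MvPolynomial (Fin 3) A) ∈ 𝔫)
    {g : MvPolynomial (Fin 3) A} (hg : g ∈ 𝔫 ^ 2) : val τ g ∈ 𝔠 ^ 2 := by
  have h3 : val τ g ∈ Ideal.map (val τ) (𝔫 ^ 2) := Ideal.mem_map_of_mem _ hg
  rw [Ideal.map_pow] at h3
  refine Ideal.pow_right_mono ?_ 2 h3
  rw [Ideal.map_le_iff_le_comap]
  intro v hv
  exact val_mem hp hc hle h0 h1 h2 hv

theorem regular_lift [Nontrivial A] {a b : ℕ} (ha : 1 < a) (hb : 1 < b) {S : Finset (ℕ × ℕ)} {z₀ : ℕ × ℕ}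
    (h0 : (0, 0) ∈ S) (hz₀ : z₀ ∈ S) (hfit : Fit k a b z₀) {e : ℕ} (he : 1 < e) {c : MaximalSpectrum A} {η : A}
    (hη : η ∈ c.asIdeal) (hη2 : η ∉ c.asIdeal ^ 2) : RegularAbove a b S c (lift S z₀ e η) := by
  classical
  intro 𝔫 hm hle hf
  have hp := hm.isPrime
  set x : MvPolynomial (Fin 3) A := MvPolynomial.X 0 with hx
  set y : MvPolynomial (Fin 3) A := MvPolynomial.X 1 with hy
  set t : MvPolynomial (Fin 3) A := MvPolynomial.X 2 with ht
  set s : MvPolynomial (Fin 3) A := t * (t - 1) ^ e with hs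
  have e1 : eqn a b S (fun z => aeval t (lift S z₀ e η z)) x y =
      y ^ a - x ^ b - s * (x ^ z₀.1 * y ^ z₀.2) - MvPolynomial.C η := by
    have e2 : (fun z : S => aeval t (lift S z₀ e η z)) = fun z : S =>
        (if z.1 = z₀ then s else 0) + (if z.1 = (0, 0) then MvPolynomial.C η else 0) := by
      funext z
      rw [lift, seed, map_add]
      congr 1
      · split_ifs
        · rw [map_mul, map_pow, map_sub, aeval_X, map_one]
        · rw [map_zero]
      · split_ifs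
        · rw [aeval_C]
          rfl
        · rw [map_zero]
    rw [e2, eqn_add, eqn_seed a b hz₀, Finset.sum_eq_single (⟨(0, 0), h0⟩ : S)]
    · simp
    · intro z _ hz
      rw [if_neg (fun h => hz (Subtype.ext h)), zero_mul, zero_mul]
    · intro h
      exact absurd (Finset.mem_univ _) h
  rw [e1] at hf
  have hds : ∀ i : Fin 3, i ≠ 2 → pd i s = 0 := by
    intro i hi
    have h1 : pd i t = 0 := pd_X_ne (fun h => hi h.symm)
    have h2 : pd i (t - 1) = 0 := by
      rw [map_sub, h1, Derivation.map_one_eq_zero, sub_zero]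
    rw [hs, Derivation.leibniz, Derivation.leibniz_pow, h1, h2]
    simp
  have key := sing hp (dx := pd 0) (dy := pd 1) (x := x) (y := y) (s := s) (η := MvPolynomial.C η)
    (pd_X_self 0) (pd_X_ne (by decide)) (hds 0 (by decide)) (pd_C _ _) (pd_X_ne (by decide))
    (pd_X_self 1) (hds 1 (by decide)) (pd_C _ _) (hle η hη) (by omega) (by omega) hfit hf
  obtain ⟨kx, ky, ks⟩ := key
  have hxb : x ^ b ∈ 𝔫 ^ 2 := by
    have h1 : x ^ 2 ∈ 𝔫 ^ 2 := Ideal.pow_mem_pow kx 2
    have h2 : x ^ b = x ^ 2 * x ^ (b - 2) := by rw [← pow_add]; congr 1; omega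
    rw [h2]
    exact Ideal.mul_mem_right _ _ h1
  have hya : y ^ a ∈ 𝔫 ^ 2 := by
    have h1 : y ^ 2 ∈ 𝔫 ^ 2 := Ideal.pow_mem_pow ky 2
    have h2 : y ^ a = y ^ 2 * y ^ (a - 2) := by rw [← pow_add]; congr 1; omega
    rw [h2]
    exact Ideal.mul_mem_right _ _ h1
  have ht01 : t ∈ 𝔫 ∨ t - 1 ∈ 𝔫 := by
    rcases hp.mem_or_mem ks with h | h
    · exact Or.inl h
    · exact Or.inr (hp.mem_of_pow_mem e h)
  have hrem : s * (x ^ z₀.1 * y ^ z₀.2) + MvPolynomial.C η ∈ 𝔫 ^ 2 := by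
    have h := (𝔫 ^ 2).sub_mem ((𝔫 ^ 2).sub_mem hya hxb) hf
    rwa [show y ^ a - x ^ b - (y ^ a - x ^ b - s * (x ^ z₀.1 * y ^ z₀.2) - MvPolynomial.C η) =
      s * (x ^ z₀.1 * y ^ z₀.2) + MvPolynomial.C η by ring] at h
  have hη3 : MvPolynomial.C η ∈ 𝔫 ^ 2 := by
    have hsub : s * (x ^ z₀.1 * y ^ z₀.2) ∈ 𝔫 ^ 2 := by
      rcases hfit with ⟨rfl, -, -⟩ | ⟨rfl, -, -⟩ | ⟨rfl, -, -⟩
      · rcases ht01 with h | h
        · exfalso
          have h1 : s + MvPolynomial.C η ∈ 𝔫 ^ 2 := by simpa using hrem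
          have h2 := der_mem (pd 2) h1
          have h3 : pd 2 (s + MvPolynomial.C η) =
              (t - 1) ^ e + t * ((e : MvPolynomial (Fin 3) A) * (t - 1) ^ (e - 1)) := by
            have h4 : pd 2 t = 1 := pd_X_self 2
            have h5 : pd 2 (t - 1) = 1 := by
              rw [map_sub, h4, Derivation.map_one_eq_zero, sub_zero]
            rw [map_add, pd_C, add_zero, hs, Derivation.leibniz, Derivation.leibniz_pow, h4, h5]
            simp
            ring
          have h2' : (t - 1) ^ e + t * ((e : MvPolynomial (Fin 3) A) * (t - 1) ^ (e - 1)) ∈ 𝔫 :=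
            h3 ▸ h2
          have h4 : (t - 1) ^ e ∈ 𝔫 := by
            have := 𝔫.sub_mem h2' (𝔫.mul_mem_right ((e : MvPolynomial (Fin 3) A) * (t - 1) ^ (e - 1)) h)
            rwa [add_sub_cancel_right] at this
          have h5 := 𝔫.sub_mem h (hp.mem_of_pow_mem e h4)
          rw [sub_sub_cancel] at h5
          exact hp.ne_top ((Ideal.eq_top_iff_one _).2 h5)
        · have h1 : (t - 1) ^ 2 ∈ 𝔫 ^ 2 := Ideal.pow_mem_pow h 2
          have h2 : s = (t - 1) ^ 2 * (t * (t - 1) ^ (e - 2)) := by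
            rw [hs]
            have : (t - 1) ^ e = (t - 1) ^ 2 * (t - 1) ^ (e - 2) := by
              rw [← pow_add]; congr 1; omega
            rw [this]
            ring
          rw [h2, mul_assoc]
          exact Ideal.mul_mem_right _ _ h1
      · simp only [pow_one, pow_zero, mul_one]
        rw [sq]
        exact Ideal.mul_mem_mul ks kx
      · simp only [pow_one, pow_zero, one_mul]
        rw [sq]
        exact Ideal.mul_mem_mul ks ky
    have := (𝔫 ^ 2).sub_mem hrem hsub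
    rwa [add_sub_cancel_left] at this
  have hcm := c.isMaximal
  apply hη2
  rcases ht01 with h | h
  · have := val_sq_mem hp hcm hle (τ := 0) kx ky (by rw [map_zero, sub_zero]; exact h) hη3
    simpa [val] using this
  · have := val_sq_mem hp hcm hle (τ := 1) kx ky (by rw [map_one]; exact h) hη3
    simpa [val] using this

/-- the regularity depends only on the coefficients modulo the square -/
theorem regular_congr {a b : ℕ} {S : Finset (ℕ × ℕ)} {c : MaximalSpectrum A} {D D' : S → A[X]}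
    (h : ∀ z j, (D z).coeff j - (D' z).coeff j ∈ c.asIdeal ^ 2) (hD : RegularAbove a b S c D) :
    RegularAbove a b S c D' := by
  intro 𝔫 hm hle hf
  refine hD 𝔫 hm hle ?_
  have e1 : (fun z => aeval (MvPolynomial.X 2 : MvPolynomial (Fin 3) A) (D z)) = fun z =>
      aeval (MvPolynomial.X 2 : MvPolynomial (Fin 3) A) (D' z) +
        aeval (MvPolynomial.X 2 : MvPolynomial (Fin 3) A) (D z - D' z) := by
    funext z
    rw [← map_add]
    congr 1
    ring
  rw [e1, eqn_add]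
  refine (𝔫 ^ 2).sub_mem hf (Ideal.sum_mem _ fun z _ => ?_)
  rw [mul_assoc]
  refine Ideal.mul_mem_right _ _ ?_
  rw [aeval_eq_sum_range]
  refine Ideal.sum_mem _ fun j _ => ?_
  rw [coeff_sub, Algebra.smul_def]
  refine Ideal.mul_mem_right _ _ ?_
  have h1 : Ideal.map (MvPolynomial.C : A →+* MvPolynomial (Fin 3) A) (c.asIdeal ^ 2) ≤ 𝔫 ^ 2 := by
    rw [Ideal.map_pow]
    refine Ideal.pow_right_mono ?_ 2
    rw [Ideal.map_le_iff_le_comap]
    exact hle
  exact h1 (Ideal.mem_map_of_mem _ (h z j))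

end total

end Pool.Agent.H11.CB
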